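import Pool.Agent.EQC.Stmts

/-!
# Squad EQC, row CBL: exact counts from blocks
-/

open Finset

namespace Pool.Agent.EQC.H41

theorem mem_f {α : Type} [Fintype α] {p : α → Prop} {inst : DecidablePred p} {x : α} :
    x ∈ @Finset.filter α p inst univ ↔ p x :=
  ⟨fun h => (Finset.mem_filter.1 h).2, fun h => Finset.mem_filter.2 ⟨Finset.mem_univ _, h⟩⟩

theorem cbl : CblStmt := by
  classical
  intro Ω _ q n r hcard hr
  rcases Nat.eq_zero_or_pos q with hq | hq
  · subst hq
    have hr0 : r = 0 := Nat.le_zero.1 hr
    have h0 : Fintype.card Ω = 0 := by rw [hcard, hr0]; simp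
    have hE : IsEmpty Ω := Fintype.card_eq_zero_iff.1 h0
    refine ⟨fun _ => 0, fun b => ?_, fun κ _ k => k.elim0⟩
    unfold cnt
    rw [Finset.univ_eq_empty, Finset.filter_empty, Finset.card_empty]
  · let e : Ω ≃ Fin (q * n + r) := Fintype.equivFinOfCardEq hcard
    have hlt : ∀ x : Ω, ((e x : ℕ)) < q * n + r := fun x => (e x).2
    have hblk : ∀ x : Ω, (e x : ℕ) / q < n + (if r = 0 then 0 else 1) := by
      intro x
      rw [Nat.div_lt_iff_lt_mul hq]
      have h1 := hlt x
      have h2 : n * q = q * n := mul_comm _ _
      by_cases h : r = 0
      · rw [if_pos h, add_zero, h2]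
        omega
      · rw [if_neg h, add_mul, one_mul, h2]
        omega
    refine ⟨fun x => (e x : ℕ) / q, ?_, ?_⟩
    · intro b
      have h1 : cnt (fun x : Ω => (e x : ℕ) / q = b) ≤ (Finset.range q).card := by
        unfold cnt
        apply Finset.card_le_card_of_injOn (fun x : Ω => (e x : ℕ) % q)
        · intro x _
          exact Finset.mem_coe.2 (Finset.mem_range.2 (Nat.mod_lt _ hq))
        · intro x hx y hy hxy
          have hx' := Finset.mem_coe.1 hx
          have hy' := Finset.mem_coe.1 hy
          rw [mem_f] at hx' hy'
          have h2 := Nat.div_add_mod (e x : ℕ) q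
          have h3 := Nat.div_add_mod (e y : ℕ) q
          have hxy' : (e x : ℕ) % q = (e y : ℕ) % q := hxy
          rw [hx', hxy'] at h2
          rw [hy'] at h3
          exact e.injective (Fin.ext (h2.symm.trans h3))
      rw [Finset.card_range] at h1
      exact h1
    · intro κ hκ k
      let Sk : Finset Ω := @Finset.filter _ (fun x => κ x = k) (fun _ => Classical.propDecidable _)
        univ
      have hinj : Set.InjOn (fun x : Ω => (e x : ℕ) / q) (Sk : Set Ω) := by
        intro x hx y hy hxy
        have hx' := Finset.mem_coe.1 hx
        have hy' := Finset.mem_coe.1 hy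
        rw [mem_f] at hx' hy'
        exact hκ x y hxy (hx'.trans hy'.symm)
      have hc := Finset.card_image_of_injOn hinj
      show n ≤ Sk.card ∧ Sk.card ≤ _
      rw [← hc]
      constructor
      · have h1 : (Finset.range n) ⊆
            Sk.image (fun x : Ω => (e x : ℕ) / q) := by
          intro b hb
          have hbn := Finset.mem_range.1 hb
          have hbd : ∀ j : Fin q, q * b + (j : ℕ) < q * n + r := by
            intro j
            have h2 : q * (b + 1) ≤ q * n := Nat.mul_le_mul_left q hbn
            rw [mul_add, mul_one] at h2
            have := j.2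
            omega
          let g : Fin q → Ω := fun j => e.symm ⟨q * b + j, hbd j⟩
          have hg : Function.Injective g := by
            intro i j hij
            have h3 := e.symm.injective hij
            have h4 := congrArg Fin.val h3
            have h5 : q * b + (i : ℕ) = q * b + (j : ℕ) := h4
            exact Fin.ext (Nat.add_left_cancel h5)
          have hgB : ∀ j, (e (g j) : ℕ) / q = b := by
            intro j
            show ((e (e.symm ⟨q * b + j, hbd j⟩) : Fin (q * n + r)) : ℕ) / q = b
            rw [Equiv.apply_symm_apply]
            show (q * b + (j : ℕ)) / q = b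
            rw [Nat.mul_add_div hq, Nat.div_eq_of_lt j.2, add_zero]
          -- the colours of the elements `g j` are different
          have hκg : Function.Injective fun j => κ (g j) := by
            intro i j hij
            exact hg (hκ (g i) (g j) ((hgB i).trans (hgB j).symm) hij)
          obtain ⟨j, hj⟩ := (Finite.injective_iff_surjective.1 hκg) k
          exact Finset.mem_image.2 ⟨g j, mem_f.2 hj, hgB j⟩
        have h2 := Finset.card_le_card h1
        rw [Finset.card_range] at h2
        exact h2
      · have h1 : Sk.image (fun x : Ω => (e x : ℕ) / q) ⊆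
            Finset.range (n + (if r = 0 then 0 else 1)) := by
          intro b hb
          obtain ⟨x, -, rfl⟩ := Finset.mem_image.1 hb
          exact Finset.mem_range.2 (hblk x)
        have h2 := Finset.card_le_card h1
        rw [Finset.card_range] at h2
        exact h2

end Pool.Agent.EQC.H41
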